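import Pool.Agent.H9.CA.TarG
import Pool.Agent.H68.SF.LBas

/-! # Module GG: the data of the construction exist -/

set_option linter.unusedVariables false

open Ordinal Order Set
open scoped ZFSet

namespace CAA

open SF

namespace GG81

variable {f g h : (V → Prop) → (ℕ → V) → V}

theorem dfb_isQ (hf : Tm ZFm f) (hg : Tm ZFm g) (hh : Tm ZFm h) :
    Dfb ZFm (fun M v => IsQ (f M v) (g M v) (h M v)) := by
  refine Dfb.at3 (P := fun _ x y z => IsQ x y z) ?_ hf hg hh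
  have h1 : Dfb ZFm (fun _ v => v 2 ⊆ v 0) := Dfb.subset (Tm.var 2) (Tm.var 0)
  have h2 : Dfb ZFm (fun _ v => v 2 = ∅ ∨ ∃ d ∈ v 2, ∀ x ∈ v 2, x ∈ d ∨ x = d) := by
    refine (Dfb.eq (Tm.var 2) Tm.empty).or ?_
    refine (Dfb.bex (R := fun _ v => ∀ x ∈ v 3, x ∈ v 0 ∨ x = v 0) ktr_zfm (Tm.var 2)
      ?_).congr fun M k v hv => Iff.rfl
    exact (Dfb.ball (R := fun _ v => v 0 ∈ v 1 ∨ v 0 = v 1) ktr_zfm (Tm.var 3)
      ((Dfb.mem (Tm.var 0) (Tm.var 1)).or (Dfb.eq (Tm.var 0) (Tm.var 1)))).congr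
      fun M k v hv => Iff.rfl
  have h3 : Dfb ZFm (fun _ v => ∀ d ∈ v 0, d ≠ ∅ → (∀ x ∈ d, ∃ y ∈ v 2, x ∈ y ∧ y ∈ d) →
      d ∈ v 2) := by
    refine (Dfb.ball (R := fun _ v => ¬ v 0 = ∅ → (∀ x ∈ v 0, ∃ y ∈ v 3, x ∈ y ∧ y ∈ v 0) →
      v 0 ∈ v 3) ktr_zfm (Tm.var 0) ?_).congr fun M k v hv => Iff.rfl
    refine (Dfb.eq (Tm.var 0) Tm.empty).not.imp (Dfb.imp ?_ (Dfb.mem (Tm.var 0) (Tm.var 3)))
    refine (Dfb.ball (R := fun _ v => ∃ y ∈ v 4, v 0 ∈ y ∧ y ∈ v 1) ktr_zfm (Tm.var 0)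
      ?_).congr fun M k v hv => Iff.rfl
    exact (Dfb.bex (R := fun _ v => v 1 ∈ v 0 ∧ v 0 ∈ v 2) ktr_zfm (Tm.var 4)
      ((Dfb.mem (Tm.var 1) (Tm.var 0)).and (Dfb.mem (Tm.var 0) (Tm.var 2)))).congr
      fun M k v hv => Iff.rfl
  have h4 : Dfb ZFm (fun _ v => ∀ x ∈ v 2, x ∉ v 1) :=
    (Dfb.ball (R := fun _ v => ¬ v 0 ∈ v 2) ktr_zfm (Tm.var 2)
      (Dfb.mem (Tm.var 0) (Tm.var 2)).not).congr fun M k v hv => Iff.rfl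
  refine (h1.and (h2.and (h3.and h4))).congr fun M k v hv => ?_
  constructor
  · rintro ⟨a, b, c, d⟩
    exact ⟨a, b, c, d⟩
  · rintro ⟨a, b, c, d⟩
    exact ⟨a, b, c, d⟩

theorem dfb_Ee (hf : Tm ZFm f) (hg : Tm ZFm g) : Dfb ZFm (fun M v => Ee (f M v) (g M v)) := by
  refine Dfb.at2 (P := fun _ x y => Ee x y) ?_ hf hg
  refine (Dfb.subset (Tm.var 1) (Tm.var 0)).and ?_
  refine (Dfb.ball (R := fun _ v => ∀ y ∈ v 2, v 0 ∈ y → v 0 ∈ v 2) ktr_zfm (Tm.var 0)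
    ?_).congr fun M k v hv => Iff.rfl
  exact (Dfb.ball (R := fun _ v => v 1 ∈ v 0 → v 1 ∈ v 3) ktr_zfm (Tm.var 2)
    ((Dfb.mem (Tm.var 1) (Tm.var 0)).imp (Dfb.mem (Tm.var 1) (Tm.var 3)))).congr
    fun M k v hv => Iff.rfl

/-- conditions, with sets as parameters -/
def CdS (L K mu Ef p : V) : Prop := p ∈ L ∧ (∀ z ∈ p, IsPr z ∧ fst z ∈ K) ∧ Svl p ∧
  ∀ k ∈ K, IsQ (app mu k) (app Ef k) (app p k)

theorem isCd_iff {κ : Ordinal.{0}} {mu Ef p : V} :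
    IsCd κ mu Ef p ↔ CdS (LA ∅ κ) κ.toZFSet mu Ef p := by
  constructor
  · rintro ⟨a, b, c, d⟩
    refine ⟨a, fun z hz => ?_, c, fun k hk => ?_⟩
    · obtain ⟨k, hk, q, rfl⟩ := b z hz
      refine ⟨⟨_, _, rfl⟩, ?_⟩
      rw [fst_pair]
      exact Ordinal.mem_toZFSet_iff.2 ⟨k, hk, rfl⟩
    · obtain ⟨k', hk', rfl⟩ := Ordinal.mem_toZFSet_iff.1 hk
      exact d k' hk'
  · rintro ⟨a, b, c, d⟩
    refine ⟨a, fun z hz => ?_, c, fun k hk => ?_⟩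
    · obtain ⟨⟨x, y, rfl⟩, h2⟩ := b z hz
      rw [fst_pair] at h2
      obtain ⟨k, hk, rfl⟩ := Ordinal.mem_toZFSet_iff.1 h2
      exact ⟨k, hk, y, rfl⟩
    · exact d _ (Ordinal.mem_toZFSet_iff.2 ⟨k, hk, rfl⟩)

theorem dfb_cdS : Dfb ZFm (fun _ v => CdS (v 1) (v 2) (v 3) (v 4) (v 0)) := by
  have h1 : Dfb ZFm (fun _ v => v 0 ∈ v 1) := Dfb.mem (Tm.var 0) (Tm.var 1)
  have h2 : Dfb ZFm (fun _ v => ∀ z ∈ v 0, IsPr z ∧ fst z ∈ v 2) :=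
    (Dfb.ball (R := fun _ v => IsPr (v 0) ∧ fst (v 0) ∈ v 3) ktr_zfm (Tm.var 0)
      ((Dfb.isPr (Tm.var 0)).and (Dfb.mem (Tm.fst (Tm.var 0)) (Tm.var 3)))).congr
      fun M k v hv => Iff.rfl
  have h3 : Dfb ZFm (fun _ v => Svl (v 0)) := Dfb.svl (Tm.var 0)
  have h4 : Dfb ZFm (fun _ v => ∀ k ∈ v 2, IsQ (app (v 3) k) (app (v 4) k) (app (v 0) k)) :=
    (Dfb.ball (R := fun _ v => IsQ (app (v 4) (v 0)) (app (v 5) (v 0)) (app (v 1) (v 0)))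
      ktr_zfm (Tm.var 2) (dfb_isQ (Tm.app (Tm.var 4) (Tm.var 0)) (Tm.app (Tm.var 5) (Tm.var 0))
        (Tm.app (Tm.var 1) (Tm.var 0)))).congr fun M k v hv => Iff.rfl
  exact (h1.and (h2.and (h3.and h4))).congr fun M k v hv => Iff.rfl

/-- the set of conditions -/
theorem tm_c : Tm ZFm (fun _ v => (v 0).sep fun p => CdS (v 0) (v 1) (v 2) (v 3) p) :=
  (Tm.sep dfb_cdS (Tm.var 0)).congr fun M k v hv => rfl

/-- the order -/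
theorem tm_r : Tm ZFm (fun _ v => (ZFSet.prod (v 0) (v 0)).sep fun z =>
    ∀ k ∈ v 1, Ee (app (fst z) k) (app (snd z) k)) := by
  have h1 : Dfb ZFm (fun _ v => ∀ k ∈ v 2, Ee (app (fst (v 0)) k) (app (snd (v 0)) k)) :=
    (Dfb.ball (R := fun _ v => Ee (app (fst (v 1)) (v 0)) (app (snd (v 1)) (v 0)))
      ktr_zfm (Tm.var 2) (dfb_Ee (Tm.app (Tm.fst (Tm.var 1)) (Tm.var 0))
        (Tm.app (Tm.snd (Tm.var 1)) (Tm.var 0)))).congr fun M k v hv => Iff.rfl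
  exact (Tm.sep h1 (Tm.prod (Tm.var 0) (Tm.var 0))).congr fun M k v hv => rfl

end GG81

open GG81 in
theorem pf_GG (hGD : T_GD) (hGE : T_GE) (hGF : T_GF) : T_GG := by
  intro κ χ θ hG
  obtain ⟨γ, μ, ga, mu, hS⟩ := hGD κ χ θ hG
  obtain ⟨Ef, hE, hEA⟩ := hGE κ χ θ γ μ ga mu hG hS
  obtain ⟨tf, htf, htA, htB⟩ := hGF κ χ θ hG
  have kM : ZFm (· ∈ LA ∅ θ) := hG.zfc.toZFm
  have hsub : ∀ x, x ∈ LA ∅ χ → x ∈ LA ∅ θ := fun x hx => Lh_mono hG.χθ.le hx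
  have hL : LA ∅ κ ∈ LA ∅ χ := Lh_mem hG.κχ
  have hK : κ.toZFSet ∈ LA ∅ θ := (hG.ord κ).2 (hG.κχ.trans hG.χθ)
  -- the conditions
  have hc1 : ((LA ∅ κ).sep fun p => CdS (LA ∅ κ) κ.toZFSet mu Ef p) ∈ LA ∅ θ :=
    tm_c.1 _ kM (fun i => match i with
      | 0 => LA ∅ κ
      | 1 => κ.toZFSet
      | 2 => mu
      | _ => Ef) (by
        intro i
        match i with
        | 0 => exact hsub _ hL
        | 1 => exact hK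
        | 2 => exact hsub _ hS.muM
        | (n + 3) => exact hsub _ hE)
  have hc2 : ((LA ∅ κ).sep fun p => CdS (LA ∅ κ) κ.toZFSet mu Ef p) ∈ LA ∅ χ :=
    hG.subχ _ hL _ hc1 ZFSet.sep_subset
  obtain ⟨c, hc⟩ : ∃ c, c = (LA ∅ κ).sep fun p => CdS (LA ∅ κ) κ.toZFSet mu Ef p := ⟨_, rfl⟩
  rw [← hc] at hc1 hc2
  have hcA : ∀ p, p ∈ c ↔ IsCd κ mu Ef p := by
    intro p
    rw [hc, ZFSet.mem_sep, isCd_iff]
    exact ⟨fun h => h.2, fun h => ⟨h.1, h⟩⟩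
  -- the order
  have hr1 : ((ZFSet.prod c c).sep fun z => ∀ k ∈ κ.toZFSet,
      Ee (app (fst z) k) (app (snd z) k)) ∈ LA ∅ θ :=
    tm_r.1 _ kM (fun i => match i with
      | 0 => c
      | _ => κ.toZFSet) (by
        intro i
        match i with
        | 0 => exact hc1
        | (n + 1) => exact hK)
  have hcc : ZFSet.prod c c ∈ LA ∅ χ :=
    (Tm.prod (Tm.var 0) (Tm.var 0)).1 _ hG.zχ (fun _ => c) (fun _ => hc2)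
  have hr2 : ((ZFSet.prod c c).sep fun z => ∀ k ∈ κ.toZFSet,
      Ee (app (fst z) k) (app (snd z) k)) ∈ LA ∅ χ :=
    hG.subχ _ hcc _ hr1 ZFSet.sep_subset
  refine ⟨⟨κ, χ, θ, γ, μ, ga, mu, Ef, tf, c, (ZFSet.prod c c).sep fun z => ∀ k ∈ κ.toZFSet,
      Ee (app (fst z) k) (app (snd z) k)⟩, ?_⟩
  refine ⟨hG, hS, hE, hEA, htf, htA, htB, hc2, hcA, hr2, ?_⟩
  intro z
  show z ∈ ((ZFSet.prod c c).sep fun z => ∀ k ∈ κ.toZFSet,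
      Ee (app (fst z) k) (app (snd z) k)) ↔ ∃ p ∈ c, ∃ q ∈ c, z = ZFSet.pair p q ∧
    ∀ k < κ, Ee (app p k.toZFSet) (app q k.toZFSet)
  rw [ZFSet.mem_sep, ZFSet.mem_prod]
  constructor
  · rintro ⟨⟨p, hp, q, hq, rfl⟩, h⟩
    refine ⟨p, hp, q, hq, rfl, fun k hk => ?_⟩
    have h2 := h _ (Ordinal.mem_toZFSet_iff.2 ⟨k, hk, rfl⟩)
    rwa [fst_pair, snd_pair] at h2
  · rintro ⟨p, hp, q, hq, rfl, h⟩
    refine ⟨⟨p, hp, q, hq, rfl⟩, fun k hk => ?_⟩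
    obtain ⟨k', hk', rfl⟩ := Ordinal.mem_toZFSet_iff.1 hk
    rw [fst_pair, snd_pair]
    exact h k' hk'

end CAA
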